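import Pool.Agent.N975.P21G.Sig7
import Pool.Agent.N970.Sgn.Sgp

/-!
# The signs of the rotations of the lattice ramified at `7` (project P21G)
-/

set_option autoImplicit false

namespace Pool.Agent.N975.P21G

open Finset
open Pool.Agent.N969.P15 (V3 Ev c2)
open Pool.Agent.N969.RQ (Fd ip7 vec7)
open Pool.Agent.N970.P21G (mem7)
open Pool.Agent.N970.RQ (frm7 nK rot7 wot7 sim_rot7 sim_wot7 psi_rot7 psi_wot7)
open Pool.Agent.N969.P17G (sgp sg2 sgnE t2)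
open Pool.Agent.N844.P17G (Iso sig rel)
open Pool.Agent.N970.P17G (hs hs_mul hs_sq_mul hs_two hs_norm hs_pm hs_near hs_neg_one c2_pm
  t2_pm t2_sq sg2_ne sg2_zero sqrt_neg_seven sq8)
open Pool.Agent.N871.P15G (lo sgp_sig c2_neg_pm prod_pm prod_lo prod_lo2 shape' c2_16 c2_8b c2_24a)
open Pool.Agent.N970.Sgn
open Pool.Agent.N877.P21G (Fn)

/-- a positive discriminant `A` and a negative discriminant `-m`, prime to each other -/
structure Pp (A m : ℕ) : Prop where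
  hA : A = 1 ∨ Fd A
  hm : Fn m
  hc : Nat.Coprime A m

theorem Pp.n {A m : ℕ} (h : Pp A m) : Fn (A * m) :=
  (Pool.Agent.N871.G21.Fn_mul h.hA h.hm h.hc).1

theorem mem_neg {n : ℕ} {v : V3} (hv : v ∈ vec7 (n : ℤ)) : -v ∈ vec7 (n : ℤ) := by
  rw [mem7] at hv ⊢
  rw [ip_neg, neg_ip, neg_neg, hv]

theorem mem_rot {n : ℕ} {v : V3} (hv : v ∈ vec7 (n : ℤ)) : rot7 v ∈ vec7 (n : ℤ) := by
  rw [mem7] at hv ⊢
  rw [sim_rot7.iso, hv]; ring

theorem mem_wot {n : ℕ} {v : V3} (hv : v ∈ vec7 (n : ℤ)) : wot7 v ∈ vec7 (n : ℤ) := by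
  rw [mem7] at hv ⊢
  rw [sim_wot7.iso, hv]; ring

theorem ip_rot (v : V3) : ip7 v v + ip7 v (rot7 v) = 2 * (2 * v 1 + v 2) ^ 2 := by
  simp [rot7, ip7]
  ring

theorem ip_wot (v : V3) : ip7 v v + ip7 v (wot7 v) = 2 * (7 * v 0 ^ 2) := by
  simp [wot7, ip7]
  ring

/-! ### the sign of `-v` -/

theorem sg_neg {A m : ℕ} (h : Pp A m) {v : V3} (hv : v ∈ vec7 ((A * m : ℕ) : ℤ)) :
    sgnE 1 A (A * m) (((A * m : ℕ) + ip7 v (-v)) / 2) = 1 := by
  have e : (((A * m : ℕ) : ℤ) + ip7 v (-v)) / 2 = 0 := by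
    rw [ip_neg, mem7.1 hv]
    simp
  rw [e]
  exact sgnE_zero h.hA h.hm h.hc

/-! ### the rotation of norm `1` -/

theorem sg_rot {A m : ℕ} (h : Pp A m) (h7 : ¬ 7 ∣ A) {v : V3}
    (hv : v ∈ vec7 ((A * m : ℕ) : ℤ)) :
    sgnE 1 A (A * m) (((A * m : ℕ) + ip7 v (rot7 v)) / 2) = 1 := by
  have hT : (((A * m : ℕ) : ℤ) + ip7 v (rot7 v)) / 2 = (2 * v 1 + v 2) ^ 2 := by
    have h1 := ip_rot v
    rw [mem7.1 hv] at h1
    omega
  by_cases hx : 2 * v 1 + v 2 = 0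
  · rw [hT, hx, zero_pow two_ne_zero]
    exact sgnE_zero h.hA h.hm h.hc
  · rw [sgnE_lo]
    refine prod_eq_one fun p hp => ?_
    have hp' := Nat.prime_of_mem_primeFactors hp
    have hpA := Nat.dvd_of_mem_primeFactors hp
    have hpn : p ∣ A * m := hpA.mul_right m
    unfold lo
    split_ifs with h2
    · rw [hT, sg2_ne (pow_ne_zero 2 hx)]
      have e : (2 * v 1 + v 2) ^ 2 = (2 * v 1 + v 2) ^ 2 * 1 := by ring
      rw [e, hs_sq_mul _ hx one_ne_zero]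
      have := Pool.Agent.N970.P17G.hs_of (A * m) (u := 1) (by norm_num) 0
      simp only [pow_zero, one_mul, mul_one] at this
      rw [this]
      unfold Pool.Agent.N969.P15.c2
      norm_num
    · have : Fact p.Prime := ⟨hp'⟩
      have hp7 : p ≠ 7 := by rintro rfl; exact h7 hpA
      have hK : ¬ (p : ℤ) ∣ 14 := nK (l := p) h2 hp7
      have hn2 := sqf_of h.n hp' h2
      have iv : Iso ip7 p v := iso_of frm7 (mem7.1 hv) (by exact_mod_cast hpn)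
        (fun h => hn2 (by exact_mod_cast h))
      have iw : Iso ip7 p (rot7 v) := iso_of frm7 (mem7.1 (mem_rot hv)) (by exact_mod_cast hpn)
        (fun h => hn2 (by exact_mod_cast h))
      rw [sgp_sig frm7 h2 hK hpn hn2 (mem7.1 hv) (mem7.1 (mem_rot hv))
        (par (mem7.1 hv) (mem7.1 (mem_rot hv))), ← psi_mul frm7 h2 hK iv iw, psi_rot7 h2 hp7 iv]
      exact psi_sq frm7 h2 hK iv

/-! ### the rotation of norm `7` -/

theorem sgp_wot {n p : ℕ} (hp : p.Prime) (h2 : p ≠ 2) (h7 : p ≠ 7) (hn : p ∣ n)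
    (hn2 : ¬ p ^ 2 ∣ n) {v : V3} (hv : v ∈ vec7 (n : ℤ)) :
    sgp 1 n p (((n : ℤ) + ip7 v (wot7 v)) / 2) = jacobiSym 7 p := by
  have : Fact p.Prime := ⟨hp⟩
  have hK : ¬ (p : ℤ) ∣ 14 := nK (l := p) h2 h7
  have iv : Iso ip7 p v := iso_of frm7 (mem7.1 hv) (by exact_mod_cast hn)
    (fun h => hn2 (by exact_mod_cast h))
  have iw : Iso ip7 p (wot7 v) := iso_of frm7 (mem7.1 (mem_wot hv)) (by exact_mod_cast hn)
    (fun h => hn2 (by exact_mod_cast h))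
  rw [sgp_sig frm7 h2 hK hn hn2 (mem7.1 hv) (mem7.1 (mem_wot hv))
    (par (mem7.1 hv) (mem7.1 (mem_wot hv))), ← psi_mul frm7 h2 hK iv iw, psi_wot7 h2 h7 iv]
  have := psi_sq frm7 h2 hK iv
  linear_combination jacobiSym 7 p * this

/-- the sign of the rotation at two -/
theorem sg2_wot (n : ℕ) (c : ℤ) : sg2 1 n (7 * c ^ 2) = c2 n (-1) := by
  by_cases hc : c = 0
  · subst hc
    have : (7 : ℤ) * 0 ^ 2 = 0 := by norm_num
    rw [this, sg2_zero]
    simp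
  · have h0 : (7 : ℤ) * c ^ 2 ≠ 0 := by positivity
    rw [sg2_ne h0, mul_comm, hs_sq_mul n hc (by norm_num)]
    have := Pool.Agent.N970.P17G.hs_of n (u := 7) (by norm_num) 0
    simp only [pow_zero, one_mul, mul_one] at this
    rw [this]
    exact Pool.Agent.N970.P17G.c2_mod n (by norm_num)

theorem jac7_one {N : ℕ} (h : N % 4 = 1) : jacobiSym 7 N = jacobiSym N 7 := by
  have := jacobiSym.quadratic_reciprocity_one_mod_four' (a := 7) (b := N) (by decide) h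
  exact_mod_cast this

theorem jac7_three {N : ℕ} (h : N % 4 = 3) : jacobiSym 7 N = - jacobiSym N 7 := by
  have := jacobiSym.quadratic_reciprocity_three_mod_four (a := 7) (b := N) (by norm_num) h
  exact_mod_cast this

theorem Pp.pos {A m : ℕ} (h : Pp A m) : 0 < A := by
  rcases h.hA with rfl | h
  · exact one_pos
  · exact lt_trans one_pos h.1

theorem Pp.shape {A m : ℕ} (h : Pp A m) : (¬ 2 ∣ A ∧ Squarefree A ∧ A % 4 = 1) ∨
    (∃ N, A = 4 * N ∧ ¬ 2 ∣ N ∧ Squarefree N ∧ N % 4 = 3 ∧ (A * m) % 16 = 4 ∧ Ev (A * m)) ∨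
    ∃ N, A = 8 * N ∧ ¬ 2 ∣ N ∧ Squarefree N ∧
      ((N % 4 = 3 ∧ (A * m) % 32 = 8) ∨ (N % 4 = 1 ∧ (A * m) % 32 = 24)) ∧ Ev (A * m) := by
  have hd : A * m / A = m := Nat.mul_div_cancel_left _ h.pos
  refine shape' (n := A * m) h.n ⟨dvd_mul_right _ _, by rw [hd]; exact h.hc⟩ ?_ (by rw [hd]; exact h.hm)
  rcases h.hA with h1 | ⟨h1, h2⟩
  · exact Or.inl h1
  · refine Or.inr ?_
    rcases h2 with ⟨a, b⟩ | h2
    · exact Or.inl ⟨a, b, h1⟩
    · exact Or.inr h2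

/-- the sign of the rotation of norm `7` -/
theorem sg_wot {A m : ℕ} (h : Pp A m) (h7 : ¬ 7 ∣ A) {v : V3}
    (hv : v ∈ vec7 ((A * m : ℕ) : ℤ)) :
    sgnE 1 A (A * m) (((A * m : ℕ) + ip7 v (wot7 v)) / 2) = jacobiSym A 7 := by
  have hT : (((A * m : ℕ) : ℤ) + ip7 v (wot7 v)) / 2 = 7 * v 0 ^ 2 := by
    have h1 := ip_wot v
    rw [mem7.1 hv] at h1
    omega
  rw [sgnE_lo]
  have key : ∀ N : ℕ, N ∣ A → ¬ 2 ∣ N → ∀ p ∈ N.primeFactors,
      sgp 1 (A * m) p (((A * m : ℕ) + ip7 v (wot7 v)) / 2) = jacobiSym 7 p := by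
    intro N hN h2 p hp
    have hp' := Nat.prime_of_mem_primeFactors hp
    have hpN := Nat.dvd_of_mem_primeFactors hp
    have hp2 : p ≠ 2 := by rintro rfl; exact h2 hpN
    have hp7 : p ≠ 7 := by rintro rfl; exact h7 (hpN.trans hN)
    exact sgp_wot hp' hp2 hp7 ((hpN.trans hN).mul_right m) (sqf_of h.n hp' hp2) hv
  rcases h.shape with ⟨h2, hs, h4⟩ | ⟨N, hA, hN2, hNs, hN4, h16, hEv⟩ |
    ⟨N, hA, hN2, hNs, h4, hEv⟩
  · rw [prod_lo 7 _ hs h2 (key A (dvd_refl _) h2), jac7_one h4]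
  · have e : A = 2 ^ 2 * N := by rw [hA]; norm_num
    have e1 : A.primeFactors = (2 ^ 2 * N).primeFactors := by rw [← e]
    rw [e1, prod_lo2 7 _ hNs hN2 two_ne_zero (key N ⟨4, by rw [hA]; ring⟩ hN2), hT, sg2_wot,
      jac7_three hN4, c2_16 h16 (-1) (by norm_num), hA]
    push_cast
    rw [jacobiSym.mul_left]
    have : jacobiSym 4 7 = 1 := by decide +kernel
    rw [this]
    ring
  · have e : A = 2 ^ 3 * N := by rw [hA]; norm_num
    have e1 : A.primeFactors = (2 ^ 3 * N).primeFactors := by rw [← e]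
    rw [e1, prod_lo2 7 _ hNs hN2 three_ne_zero (key N ⟨8, by rw [hA]; ring⟩ hN2), hT, sg2_wot]
    have hj : jacobiSym A 7 = jacobiSym N 7 := by
      rw [hA]
      push_cast
      rw [jacobiSym.mul_left]
      have : jacobiSym 8 7 = 1 := by decide +kernel
      rw [this, one_mul]
    rw [hj]
    rcases h4 with ⟨h4, h32⟩ | ⟨h4, h32⟩
    · rw [jac7_three h4, c2_8b h32 (-1) (by norm_num)]
      ring
    · rw [jac7_one h4, c2_24a h32 (-1) (by norm_num), one_mul]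

/-! ### the sign function with its symmetries -/

/-- **the sign function** -/
theorem E_ex {A m : ℕ} (h : Pp A m) (h7 : ¬ 7 ∣ A) : ∃ E : V3 → ℤ,
    (∀ v, E v = 1 ∨ E v = -1) ∧
    (∀ v ∈ vec7 ((A * m : ℕ) : ℤ), ∀ w ∈ vec7 ((A * m : ℕ) : ℤ),
      sgnE 1 A (A * m) (((A * m : ℕ) + ip7 v w) / 2) = E v * E w) ∧
    (∀ v ∈ vec7 ((A * m : ℕ) : ℤ), E (-v) = E v) ∧
    (∀ v ∈ vec7 ((A * m : ℕ) : ℤ), E (rot7 v) = E v) ∧
    ∀ v ∈ vec7 ((A * m : ℕ) : ℤ), E (wot7 v) = jacobiSym A 7 * E v := by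
  obtain ⟨E, h1, h2⟩ := has h.n (dvd_mul_right A m) h7
  have key : ∀ (s : ℤ) (v w : V3), v ∈ vec7 ((A * m : ℕ) : ℤ) → w ∈ vec7 ((A * m : ℕ) : ℤ) →
      sgnE 1 A (A * m) (((A * m : ℕ) + ip7 v w) / 2) = s → E w = s * E v := by
    intro s v w hv hw hs
    have h3 := h2 v hv w hw
    rw [hs] at h3
    have h4 : E v * E v = 1 := by rcases h1 v with h | h <;> rw [h] <;> norm_num
    rw [h3]
    linear_combination -E w * h4
  refine ⟨E, h1, h2, ?_, ?_, ?_⟩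
  · intro v hv
    rw [key 1 v (-v) hv (mem_neg hv) (sg_neg h hv), one_mul]
  · intro v hv
    rw [key 1 v (rot7 v) hv (mem_rot hv) (sg_rot h h7 hv), one_mul]
  · intro v hv
    exact key _ v (wot7 v) hv (mem_wot hv) (sg_wot h h7 hv)

end Pool.Agent.N975.P21G
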