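import Pool.Agent.N975.P21G.Bil3

/-!
# P21G: BILI

The signed sum over the vectors in an isotropic line modulo `3`, with the orientations at `3` and
at `7`, vanishes: it does not depend on the line, and each vector lies in two lines with opposite
orientations.
-/

set_option autoImplicit false

namespace Pool.Agent.N975.P21G

open Finset
open Pool.Agent.N969.P15 (V3 Ev)
open Pool.Agent.N969.RQ (Fd ip7 vec7 c7)
open Pool.Agent.N970.P21G (mem7 t_CP3 pc7g t_PC7r t_PC7rE)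
open Pool.Agent.N970.RQ (frm7 rot7 wot7 rot7_rot7 wot7_wot7 oo oo_mul oo_rot oo_wot L3 M3 L3_rot
  L3_wot cl sum_cl L3_cast dvd3_iff b3 b3_cast ip7_eq cast_two dvd28 cl_eq cl_dvd)
open Pool.Agent.N877.P21G (Fn I7 L7 L37 L7r cp3 w7 P7 S_BILI PrI Ai A0 K0 K3 K7 K21)
open Pool.Agent.N877.P21 (Sp7 Cls0 Cls0e Cl3 Cl3e Cl7 Cl7e Cl21 Cl21e)
open Pool.Agent.N969.P17G (sgnE)

/-! ### the orientation at `3` -/

/-- the linear form on the vectors orthogonal to a line -/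
def X3 (i : Fin 4) (v : V3) : ℤ :=
  match i with
  | 0 => v 0 - v 1 + v 2
  | 1 => - v 0 + v 1 - v 2
  | 2 => - v 0 - v 1 + v 2
  | 3 => v 0 + v 1 - v 2

/-- the same over the field -/
def MX (i : Fin 4) (a b c : ZMod 3) : ZMod 3 :=
  match i with
  | 0 => a - b + c
  | 1 => - a + b - c
  | 2 => - a - b + c
  | 3 => a + b - c

/-- the quadratic character -/
def ch3 (x : ZMod 3) : ℤ := if x = 0 then 0 else if x = 1 then 1 else -1

theorem X3_cast (i : Fin 4) (v : V3) : ((X3 i v : ℤ) : ZMod 3) = MX i (v 0) (v 1) (v 2) := by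
  match i with
  | 0 => simp [X3, MX]
  | 1 => simp [X3, MX]
  | 2 => simp [X3, MX]
  | 3 => simp [X3, MX]

theorem jac_ch3 (z : ℤ) : jacobiSym z 3 = ch3 z := by
  have h0 : ((z : ℤ) : ZMod 3) = ((z % 3 : ℤ) : ZMod 3) := by
    rw [← sub_eq_zero, ← Int.cast_sub, ← dvd3_iff]
    omega
  rw [jacobiSym.mod_left, h0]
  have h1 : 0 ≤ z % 3 := Int.emod_nonneg _ (by norm_num)
  have h2 : z % 3 < 3 := Int.emod_lt_of_pos _ (by norm_num)
  have e : z % ((3 : ℕ) : ℤ) = z % 3 := rfl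
  rw [e]
  generalize z % 3 = r at h1 h2
  interval_cases r
  · rw [jacobiSym.zero_left (by norm_num)]; decide
  · rw [jacobiSym.one_left]; decide
  · have : jacobiSym 2 3 = -1 := by decide +kernel
    rw [this]; decide

theorem X_mul : ∀ (i : Fin 4) (a b c x y z : ZMod 3), M3 i a b c = 0 → M3 i x y z = 0 →
    ch3 (MX i a b c) * ch3 (MX i x y z) = - ch3 (b3 a b c x y z) := by
  decide +kernel

theorem X_sum : ∀ a b c : ZMod 3, b3 a b c a b c = 2 →
    ∑ i : Fin 4, (if M3 i a b c = 0 then ch3 (MX i a b c) else 0) = 0 := by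
  decide +kernel

theorem X3_rot (i : Fin 4) (v : V3) :
    jacobiSym (X3 i (rot7 v)) 3 = jacobiSym (X3 (![2, 3, 0, 1] i) v) 3 := by
  apply jacobiSym.mod_left'
  have e : ∃ k : ℤ, X3 i (rot7 v) = X3 (![2, 3, 0, 1] i) v + 3 * k := by
    match i with
    | 0 => exact ⟨-v 2, by simp [X3, rot7]; ring⟩
    | 1 => exact ⟨v 2, by simp [X3, rot7]; ring⟩
    | 2 => exact ⟨-v 2, by simp [X3, rot7]; ring⟩
    | 3 => exact ⟨v 2, by simp [X3, rot7]; ring⟩
  obtain ⟨k, hk⟩ := e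
  rw [hk]
  push_cast
  omega

theorem X3_wot (i : Fin 4) (v : V3) : X3 i (wot7 v) = X3 (![3, 2, 1, 0] i) v := by
  match i with
  | 0 => simp [X3, wot7]; ring
  | 1 => simp [X3, wot7]; ring
  | 2 => simp [X3, wot7]; ring
  | 3 => simp [X3, wot7]; ring

variable {n : ℕ} {E : V3 → ℤ}

/-- the oriented signed sum -/
noncomputable def G (n : ℕ) (E : V3 → ℤ) (i : Fin 4) : ℤ :=
  ∑ v ∈ vec7 (n : ℤ), (if (3 : ℤ) ∣ L3 i v then jacobiSym (X3 i v) 3 else 0) * (oo v * E v)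

theorem G_rot (h : EH n E) (i : Fin 4) : G n E i = G n E (![2, 3, 0, 1] i) := by
  unfold G
  refine sum_nbij' rot7 rot7 (fun v hv => mem_rot hv) (fun v hv => mem_rot hv)
    (fun v _ => rot7_rot7 v) (fun v _ => rot7_rot7 v) ?_
  intro v hv
  have h3 := L3_rot (![2, 3, 0, 1] i) v
  have h4 := X3_rot (![2, 3, 0, 1] i) v
  rw [rr4] at h3 h4
  rw [h.rot v hv, oo_rot, h4]
  by_cases h5 : (3 : ℤ) ∣ L3 i v
  · rw [if_pos h5, if_pos (h3.2 h5)]
  · rw [if_neg h5, if_neg (fun h' => h5 (h3.1 h'))]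

theorem G_wot (h : EH n E) (i : Fin 4) : G n E i = G n E (![3, 2, 1, 0] i) := by
  unfold G
  refine sum_nbij' wot7 wot7 (fun v hv => mem_wot hv) (fun v hv => mem_wot hv)
    (fun v _ => wot7_wot7 v) (fun v _ => wot7_wot7 v) ?_
  intro v hv
  have h3 := L3_wot (![3, 2, 1, 0] i) v
  have h4 := X3_wot (![3, 2, 1, 0] i) v
  rw [ww4] at h3 h4
  rw [h.wot v hv, oo_wot, h4]
  by_cases h5 : (3 : ℤ) ∣ L3 i v
  · rw [if_pos h5, if_pos (h3.2 h5)]; ring
  · rw [if_neg h5, if_neg (fun h' => h5 (h3.1 h'))]; ring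

theorem G_sum (hn : n % 3 = 2) : ∑ i, G n E i = 0 := by
  unfold G
  rw [sum_comm]
  refine sum_eq_zero fun v hv => ?_
  rw [← sum_mul]
  have e1 : b3 (v 0) (v 1) (v 2) (v 0) (v 1) (v 2) = 2 := by
    rw [← b3_cast, ← ip7_eq, mem7.1 hv, Int.cast_natCast, cast_two hn]
  have e2 : ∑ i : Fin 4, (if (3 : ℤ) ∣ L3 i v then jacobiSym (X3 i v) 3 else 0) = 0 := by
    refine (sum_congr rfl fun i _ => ?_).trans (X_sum _ _ _ e1)
    rw [jac_ch3, X3_cast, ← L3_cast]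
    simp only [dvd3_iff]
  rw [e2, zero_mul]

/-- **the oriented signed sums vanish** -/
theorem G_zero (h : EH n E) (hn : n % 3 = 2) (i : Fin 4) : G n E i = 0 := by
  have hs := G_sum (E := E) hn
  have r0 := G_rot h 0
  have r1 := G_rot h 1
  have w0 := G_wot h 0
  simp only [Matrix.cons_val_zero, Matrix.cons_val_one] at r0 r1 w0
  rw [Fin.sum_univ_four] at hs
  have r0' : G n E 0 = G n E 2 := r0
  have r1' : G n E 1 = G n E 3 := r1
  have w0' : G n E 0 = G n E 3 := w0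
  match i with
  | 0 => linarith
  | 1 => linarith
  | 2 => linarith
  | 3 => linarith

/-- the sum over the common lines with the orientations -/
theorem cl_or (h : EH n E) (hn : n % 3 = 2) : ∑ q ∈ vec7 (n : ℤ) ×ˢ vec7 (n : ℤ),
    E q.1 * E q.2 * (cl q.1 q.2 * (jacobiSym (ip7 q.1 q.2) 3 * jacobiSym (ip7 q.1 q.2) 7)) = 0 := by
  have e : ∑ i, G n E i * G n E i = 0 := sum_eq_zero fun i _ => by rw [G_zero h hn, zero_mul]
  rw [← neg_eq_zero, ← e]
  have e : ∀ i : Fin 4, G n E i * G n E i = ∑ q ∈ vec7 (n : ℤ) ×ˢ vec7 (n : ℤ),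
      (E q.1 * E q.2 * (oo q.1 * oo q.2)) *
      ((if (3 : ℤ) ∣ L3 i q.1 then jacobiSym (X3 i q.1) 3 else 0) *
        (if (3 : ℤ) ∣ L3 i q.2 then jacobiSym (X3 i q.2) 3 else 0)) := by
    intro i
    unfold G
    rw [sum_mul_sum, ← sum_product']
    refine sum_congr rfl fun q _ => ?_
    ring
  rw [sum_congr rfl fun i _ => e i, sum_comm, ← sum_neg_distrib]
  refine sum_congr rfl fun q _ => ?_
  rw [← mul_sum, oo_mul]
  have e3 : ∑ i : Fin 4, ((if (3 : ℤ) ∣ L3 i q.1 then jacobiSym (X3 i q.1) 3 else 0) *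
        (if (3 : ℤ) ∣ L3 i q.2 then jacobiSym (X3 i q.2) 3 else 0)) =
      - (cl q.1 q.2 * jacobiSym (ip7 q.1 q.2) 3) := by
    unfold cl
    rw [sum_mul, ← sum_neg_distrib]
    refine sum_congr rfl fun i _ => ?_
    by_cases h1 : (3 : ℤ) ∣ L3 i q.1
    · by_cases h2 : (3 : ℤ) ∣ L3 i q.2
      · rw [if_pos h1, if_pos h2, if_pos h1, if_pos h2, jac_ch3, jac_ch3, jac_ch3, X3_cast,
          X3_cast, ip7_eq, b3_cast]
        rw [dvd3_iff, L3_cast] at h1 h2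
        rw [X_mul i _ _ _ _ _ _ h1 h2]
        ring
      · rw [if_neg h2, if_neg h2]
        ring
    · rw [if_neg h1, if_neg h1]
      ring
  rw [e3]
  ring

/-! ### BILI -/

theorem jac_neg3 (z : ℤ) : jacobiSym (-z) 3 = - jacobiSym z 3 := by
  have : -z = (-1) * z := by ring
  rw [this, jacobiSym.mul_left, show jacobiSym (-1) 3 = -1 by norm_num]
  ring

theorem jac_neg7 (z : ℤ) : jacobiSym (-z) 7 = - jacobiSym z 7 := by
  have : -z = (-1) * z := by ring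
  rw [this, jacobiSym.mul_left, show jacobiSym (-1) 7 = -1 by norm_num]
  ring

/-- the orientation character of a pair -/
theorem or_T (hn : n % 3 = 2) (hI : I7 n) {T : ℕ} {b : ℤ} (hT : T ≤ n) (hb : 2 * (T : ℤ) = n + b)
    (h3 : 3 ∣ T ∨ 3 ∣ n - T) (h7 : 7 ∣ T ∨ 7 ∣ n - T) :
    1 + jacobiSym b 3 * jacobiSym b 7 =
      if (3 ∣ T ∧ 7 ∣ n - T) ∨ (3 ∣ n - T ∧ 7 ∣ T) then 2 else 0 := by
  have hn7 : ¬ 7 ∣ n := Pool.Agent.N970.P21G.I7_nd hI
  have j3 : jacobiSym n 3 = -1 := by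
    rw [jacobiSym.mod_left]
    have : (n : ℤ) % ((3 : ℕ) : ℤ) = 2 := by push_cast; omega
    rw [this]
    decide +kernel
  have j7 : jacobiSym n 7 = 1 := by
    rw [jacobiSym.mod_left]
    have e : (n : ℤ) % ((7 : ℕ) : ℤ) = 1 ∨ (n : ℤ) % ((7 : ℕ) : ℤ) = 2 ∨
        (n : ℤ) % ((7 : ℕ) : ℤ) = 4 := by
      unfold I7 at hI
      push_cast
      omega
    rcases e with e | e | e <;> rw [e] <;> decide +kernel
  have b3 : jacobiSym b 3 = if 3 ∣ T then 1 else -1 := by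
    split_ifs with h
    · have : jacobiSym b 3 = jacobiSym (-(n : ℤ)) 3 := by
        apply jacobiSym.mod_left'
        push_cast
        omega
      rw [this, jac_neg3, j3]
      norm_num
    · have h3' := h3.resolve_left h
      have : jacobiSym b 3 = jacobiSym (n : ℤ) 3 := by
        apply jacobiSym.mod_left'
        push_cast
        omega
      rw [this, j3]
  have b7 : jacobiSym b 7 = if 7 ∣ T then -1 else 1 := by
    split_ifs with h
    · have : jacobiSym b 7 = jacobiSym (-(n : ℤ)) 7 := by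
        apply jacobiSym.mod_left'
        push_cast
        omega
      rw [this, jac_neg7, j7]
    · have h7' := h7.resolve_left h
      have : jacobiSym b 7 = jacobiSym (n : ℤ) 7 := by
        apply jacobiSym.mod_left'
        push_cast
        omega
      rw [this, j7]
  rw [b3, b7]
  by_cases a3 : 3 ∣ T
  · have c3 : ¬ 3 ∣ n - T := by omega
    by_cases a7 : 7 ∣ T
    · have c7 : ¬ 7 ∣ n - T := by omega
      simp [a3, a7, c3, c7]
    · have c7 : 7 ∣ n - T := h7.resolve_left a7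
      simp [a3, a7, c3, c7]
  · have c3 : 3 ∣ n - T := h3.resolve_left a3
    by_cases a7 : 7 ∣ T
    · have c7 : ¬ 7 ∣ n - T := by omega
      simp [a3, a7, c3, c7]
    · have c7 : 7 ∣ n - T := h7.resolve_left a7
      simp [a3, a7, c3, c7]

theorem Tq_three (hn : n % 3 = 2) {q : V3 × V3} (hq : q ∈ vec7 (n : ℤ) ×ˢ vec7 (n : ℤ))
    (hc : cl q.1 q.2 ≠ 0) : 3 ∣ Tq n q ∨ 3 ∣ n - Tq n q := by
  obtain ⟨h1, h2, -⟩ := Tq_spec hq
  have hm := mem_product.1 hq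
  have h3 := cl_dvd hn hn (mem7.1 hm.1) (mem7.1 hm.2) hc
  obtain ⟨r, hr⟩ : ∃ r, Tq n q + r = n := ⟨n - Tq n q, by omega⟩
  have e : (n : ℤ) * n - ip7 q.1 q.2 ^ 2 = 4 * ((Tq n q : ℤ) * r) := by
    have hb : ip7 q.1 q.2 = Tq n q - r := by
      have : (Tq n q : ℤ) + r = n := by exact_mod_cast hr
      linarith
    have : (n : ℤ) = Tq n q + r := by exact_mod_cast hr.symm
    rw [hb, this]
    ring
  rw [e] at h3
  have h4 : (3 : ℤ) ∣ (Tq n q : ℤ) * r := by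
    generalize (Tq n q : ℤ) * r = x at h3
    omega
  have h5 : 3 ∣ Tq n q * r := by exact_mod_cast h4
  rcases (Nat.Prime.dvd_mul (by norm_num)).1 h5 with h6 | h6
  · exact Or.inl h6
  · right
    have : n - Tq n q = r := by omega
    rw [this]
    exact h6

/-- the sum over the common lines -/
theorem cl_half (h : EH n E) (hn : n % 3 = 2) (hI : I7 n) :
    ∑ q ∈ vec7 (n : ℤ) ×ˢ vec7 (n : ℤ), E q.1 * E q.2 * cl q.1 q.2 =
    4 * ∑ q ∈ (vec7 (n : ℤ) ×ˢ vec7 (n : ℤ)).filter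
      (fun q => 3 ∣ Tq n q ∧ 7 ∣ n - Tq n q), E q.1 * E q.2 * cl q.1 q.2 := by
  have hn7 : ¬ 7 ∣ n := Pool.Agent.N970.P21G.I7_nd hI
  have h0 := cl_or h hn
  have h1 : ∑ q ∈ vec7 (n : ℤ) ×ˢ vec7 (n : ℤ), E q.1 * E q.2 * cl q.1 q.2 =
      2 * ∑ q ∈ (vec7 (n : ℤ) ×ˢ vec7 (n : ℤ)).filter
      (fun q => (3 ∣ Tq n q ∧ 7 ∣ n - Tq n q) ∨ (3 ∣ n - Tq n q ∧ 7 ∣ Tq n q)),
        E q.1 * E q.2 * cl q.1 q.2 := by
    rw [← add_zero (∑ q ∈ vec7 (n : ℤ) ×ˢ vec7 (n : ℤ), E q.1 * E q.2 * cl q.1 q.2), ← h0,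
      ← sum_add_distrib, mul_sum, sum_filter]
    refine sum_congr rfl fun q hq => ?_
    by_cases hc : cl q.1 q.2 = 0
    · rw [hc]
      split_ifs <;> ring
    · obtain ⟨a1, a2, -⟩ := Tq_spec hq
      have a3 := or_T hn hI a2 a1 (Tq_three hn hq hc) (Tq_seven hq)
      have e : E q.1 * E q.2 * cl q.1 q.2 + E q.1 * E q.2 * (cl q.1 q.2 *
          (jacobiSym (ip7 q.1 q.2) 3 * jacobiSym (ip7 q.1 q.2) 7)) =
          E q.1 * E q.2 * cl q.1 q.2 *
          (1 + jacobiSym (ip7 q.1 q.2) 3 * jacobiSym (ip7 q.1 q.2) 7) := by ring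
      rw [e, a3]
      split_ifs <;> ring
  have h2 := sum_neg (n := n) (E := E) (c := cl) cl_neg h
    (Q := fun T => 3 ∣ n - T ∧ 7 ∣ T) (Q' := fun T => 3 ∣ T ∧ 7 ∣ n - T) (by
      intro T hT
      have e : n - (n - T) = T := by omega
      rw [e])
  rw [h1, filter_or, sum_union]
  · rw [h2]
    ring
  · rw [disjoint_filter]
    rintro q hq ⟨a, b⟩ ⟨c, d⟩
    have := (Tq_spec hq).2.1
    omega

theorem PrI_facts {A m : ℕ} (h : PrI A m) :
    Pp A m ∧ jacobiSym A 7 = -1 ∧ (A * m) % 3 = 2 ∧ I7 (A * m) := by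
  obtain ⟨hA, hm, hc⟩ := h
  obtain ⟨a, b, c⟩ := K0_Fn hm
  refine ⟨⟨Or.inr hA.1, a, hc⟩, hA.2.2, ?_, I7_mul hA.2.2 c⟩
  rw [Nat.mul_mod, hA.2.1, b]

/-- **BILI** -/
theorem t_BILI : S_BILI := by
  intro A m h
  obtain ⟨hp, hj, hn3, hI⟩ := PrI_facts h
  obtain ⟨E, hE, hS⟩ := EH_of hp hj
  have hn7 : ¬ 7 ∣ A * m := Pool.Agent.N970.P21G.I7_nd hI
  rw [P7_eq hS, sq_w7 hE]
  have hn := hp.n
  set n := A * m with hn'
  have hcw : cw n = 1 := by
    unfold cw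
    rw [if_neg (by omega)]
  rw [hcw, cl_half hE hn3 hI, sum_T (S := fun z => sgnE 1 A n z) (c := cl)
    (Q := fun T => 3 ∣ T ∧ 7 ∣ n - T) (fun h => by have := h.1; omega) hS]
  have h5 : ∀ T ∈ (range n).filter (fun T => 3 ∣ T ∧ 7 ∣ n - T), sgnE 1 A n T *
      ∑ q ∈ (vec7 (n : ℤ) ×ˢ vec7 (n : ℤ)).filter (fun q => ip7 q.1 q.2 = 2 * T - (n : ℤ)),
        cl q.1 q.2 = 8 * (sgnE 1 A n T * L37 n (2 * T - (n : ℕ)) (4 * (n - T) * T)) := by
    intro T hT
    rw [mem_filter, mem_range] at hT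
    have hT0 : 0 < T := Nat.pos_of_ne_zero fun h => hn7 (by
      have := hT.2.2
      rw [h] at this
      simpa using this)
    have hD : 0 < 4 * (n - T) * T := by
      have : 0 < n - T := by omega
      positivity
    have hDD := DD hT.1
    have hd3 : 3 ∣ 4 * (n - T) * T := hT.2.1.mul_left _
    rw [sum_cl hn3 hn3, ← hDD, if_pos (by exact_mod_cast hd3),
      t_CP3 n n _ _ hn (four_dvd hn) hn3 hI hn3 hD hd3 hDD]
    ring
  rw [sum_congr rfl h5, ← mul_sum]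
  ring

end Pool.Agent.N975.P21G
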