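import Pool.Agent.N975.P21G.Lin

/-!
# P21G: BIL3, BIL21
-/

set_option autoImplicit false

namespace Pool.Agent.N975.P21G

open Finset
open Pool.Agent.N969.P15 (V3 Ev)
open Pool.Agent.N969.RQ (Fd ip7 vec7 c7)
open Pool.Agent.N970.P21G (mem7 t_CP3 pc7g t_PC7r t_PC7rE)
open Pool.Agent.N970.RQ (frm7 rot7 wot7 rot7_rot7 wot7_wot7 oo oo_mul oo_rot oo_wot L3 M3 L3_rot
  L3_wot cl sum_cl L3_cast dvd3_iff b3 b3_cast ip7_eq cast_two dvd28 cl_eq cl_dvd)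
open Pool.Agent.N877.P21G (Fn I7 L7 L37 L7r cp3 w7 P7 S_BIL3 S_BIL21 Pr3 Pr21 Ai A0 K0 K3 K7 K21)
open Pool.Agent.N877.P21 (Sp7 Cls0 Cls0e Cl3 Cl3e Cl7 Cl7e Cl21 Cl21e)
open Pool.Agent.N969.P17G (sgnE)

/-! ### the common lines of isotropic vectors -/

theorem com_iso : ∀ a b c x y z : ZMod 3, b3 a b c a b c = 0 → b3 x y z x y z = 0 →
    ¬ (a = 0 ∧ b = 0 ∧ c = 0) → ¬ (x = 0 ∧ y = 0 ∧ z = 0) →
    ∑ i : Fin 4, (if M3 i a b c = 0 then (1 : ℤ) else 0) * (if M3 i x y z = 0 then 1 else 0) =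
      if b3 a b c x y z = 0 then 1 else 0 := by
  decide +kernel

variable {n : ℕ} {E : V3 → ℤ}

theorem nz3 {v : V3} (h9 : ¬ 9 ∣ n) (hv : v ∈ vec7 (n : ℤ)) :
    ¬ ((v 0 : ZMod 3) = 0 ∧ (v 1 : ZMod 3) = 0 ∧ (v 2 : ZMod 3) = 0) := by
  rw [← dvd3_iff, ← dvd3_iff, ← dvd3_iff]
  rintro ⟨⟨x, hx⟩, ⟨y, hy⟩, ⟨z, hz⟩⟩
  rw [mem7] at hv
  apply h9
  have : (9 : ℤ) ∣ (n : ℤ) := by
    rw [← hv]
    unfold ip7
    rw [hx, hy, hz]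
    exact ⟨7 * (x * x) + 4 * (y * y) + 8 * (z * z) + 2 * (y * z + z * y), by ring⟩
  exact_mod_cast this

theorem cl_three (h3 : 3 ∣ n) (h9 : ¬ 9 ∣ n) {v w : V3} (hv : v ∈ vec7 (n : ℤ))
    (hw : w ∈ vec7 (n : ℤ)) : cl v w = if (3 : ℤ) ∣ ip7 v w then 1 else 0 := by
  have z3 : ((n : ℤ) : ZMod 3) = 0 := by
    rw [← dvd3_iff]
    exact_mod_cast h3
  have e1 : b3 (v 0) (v 1) (v 2) (v 0) (v 1) (v 2) = 0 := by
    rw [← b3_cast, ← ip7_eq, mem7.1 hv, z3]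
  have e2 : b3 (w 0) (w 1) (w 2) (w 0) (w 1) (w 2) = 0 := by
    rw [← b3_cast, ← ip7_eq, mem7.1 hw, z3]
  have key := com_iso _ _ _ _ _ _ e1 e2 (nz3 h9 hv) (nz3 h9 hw)
  have e3 : cl v w = ∑ i : Fin 4, (if M3 i (v 0) (v 1) (v 2) = 0 then (1 : ℤ) else 0) *
      (if M3 i (w 0) (w 1) (w 2) = 0 then 1 else 0) := by
    unfold cl
    refine sum_congr rfl fun i _ => ?_
    rw [← L3_cast, ← L3_cast]
    simp only [dvd3_iff]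
  rw [e3, key, ← b3_cast, ← ip7_eq]
  simp only [dvd3_iff]

/-- the weighted sum, `3 ∣ n` -/
theorem sq_three (h : EH n E) (h3 : 3 ∣ n) (h9 : ¬ 9 ∣ n) :
    (∑ v ∈ vec7 (n : ℤ), w7 n v * E v) ^ 2 =
    - (4 * ∑ q ∈ (vec7 (n : ℤ) ×ˢ vec7 (n : ℤ)).filter (fun q => ¬ 3 ∣ Tq n q),
      E q.1 * E q.2 * 1) := by
  have h0 : ∑ q ∈ vec7 (n : ℤ) ×ˢ vec7 (n : ℤ), E q.1 * E q.2 = 0 := by
    rw [sum_product]
    simp only
    rw [← sum_mul_sum, sum_E h, zero_mul]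
  have h1 : ∑ q ∈ vec7 (n : ℤ) ×ˢ vec7 (n : ℤ), E q.1 * E q.2 * cl q.1 q.2 =
      - ∑ q ∈ (vec7 (n : ℤ) ×ˢ vec7 (n : ℤ)).filter (fun q => ¬ 3 ∣ Tq n q),
        E q.1 * E q.2 * 1 := by
    have h6 : ∑ q ∈ vec7 (n : ℤ) ×ˢ vec7 (n : ℤ), E q.1 * E q.2 * cl q.1 q.2 +
        ∑ q ∈ (vec7 (n : ℤ) ×ˢ vec7 (n : ℤ)).filter (fun q => ¬ 3 ∣ Tq n q),
        E q.1 * E q.2 * 1 = ∑ q ∈ vec7 (n : ℤ) ×ˢ vec7 (n : ℤ), E q.1 * E q.2 := by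
      rw [sum_filter, ← sum_add_distrib]
      refine sum_congr rfl fun q hq => ?_
      have hm := mem_product.1 hq
      rw [cl_three h3 h9 hm.1 hm.2]
      have h2 := (Tq_spec hq).1
      have h4 : (3 : ℤ) ∣ ip7 q.1 q.2 ↔ 3 ∣ Tq n q := by omega
      by_cases h5 : 3 ∣ Tq n q
      · rw [if_pos (h4.2 h5), if_neg (fun h => h h5)]
        ring
      · rw [if_neg (fun h => h5 (h4.1 h)), if_pos h5]
        ring
    rw [h0] at h6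
    linarith
  rw [sq_w7 h, h1]
  unfold cw
  rw [if_pos h3]
  ring

/-- the prime seven -/
theorem Tq_seven {q : V3 × V3} (hq : q ∈ vec7 (n : ℤ) ×ˢ vec7 (n : ℤ)) :
    7 ∣ Tq n q ∨ 7 ∣ n - Tq n q := by
  obtain ⟨h1, h2, -⟩ := Tq_spec hq
  have hm := mem_product.1 hq
  have h3 := dvd28 q.1 q.2
  rw [mem7.1 hm.1, mem7.1 hm.2] at h3
  obtain ⟨r, hr⟩ : ∃ r, Tq n q + r = n := ⟨n - Tq n q, by omega⟩
  have e : (n : ℤ) * n - ip7 q.1 q.2 ^ 2 = 4 * ((Tq n q : ℤ) * r) := by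
    have hb : ip7 q.1 q.2 = Tq n q - r := by
      have : (Tq n q : ℤ) + r = n := by exact_mod_cast hr
      linarith
    have : (n : ℤ) = Tq n q + r := by exact_mod_cast hr.symm
    rw [hb, this]
    ring
  rw [e] at h3
  have h4 : (7 : ℤ) ∣ (Tq n q : ℤ) * r := by
    generalize (Tq n q : ℤ) * r = x at h3
    omega
  have h5 : 7 ∣ Tq n q * r := by exact_mod_cast h4
  rcases (Nat.Prime.dvd_mul (by norm_num)).1 h5 with h6 | h6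
  · exact Or.inl h6
  · right
    have : n - Tq n q = r := by omega
    rw [this]
    exact h6

/-- the number of pairs -/
theorem card_c7 (b : ℤ) : ∑ q ∈ (vec7 (n : ℤ) ×ˢ vec7 (n : ℤ)).filter
    (fun q => ip7 q.1 q.2 = b), (1 : ℤ) = c7 n b n := by
  unfold c7
  rw [sum_const, nsmul_eq_mul, mul_one]

theorem DD {T : ℕ} (hT : T < n) : ((4 * (n - T) * T : ℕ) : ℤ) = n * n - (2 * T - (n : ℕ)) ^ 2 := by
  obtain ⟨r, rfl⟩ : ∃ r, n = T + r := ⟨n - T, by omega⟩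
  have : T + r - T = r := by omega
  rw [this]
  push_cast
  ring

theorem four_dvd (hn : Fn n) (h : 2 ∣ n) : 4 ∣ n := by
  rcases hn with ⟨-, h4⟩ | ⟨m, rfl, -⟩
  · omega
  · exact ⟨m, rfl⟩

/-! ### the classes -/

/-- the properties of the pairs -/
structure P3 (A m : ℕ) : Prop where
  pp : Pp A m
  j : jacobiSym A 7 = -1
  d3 : 3 ∣ A * m

theorem j_nd {A : ℕ} (h : jacobiSym A 7 = -1) : ¬ 7 ∣ A := by
  rintro ⟨k, rfl⟩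
  have : jacobiSym ((7 * k : ℕ) : ℤ) 7 = 0 := by
    rw [jacobiSym.mod_left]
    push_cast
    rw [Int.mul_emod_right]
    exact jacobiSym.zero_left (by norm_num)
  rw [this] at h
  norm_num at h

theorem j_cases {A : ℕ} (h : jacobiSym A 7 = -1) : A % 7 = 3 ∨ A % 7 = 5 ∨ A % 7 = 6 := by
  rw [jacobiSym.mod_left] at h
  have h7 : (A : ℤ) % (7 : ℕ) = ((A % 7 : ℕ) : ℤ) := by push_cast; rfl
  rw [h7] at h
  have : A % 7 < 7 := Nat.mod_lt _ (by norm_num)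
  interval_cases hA : A % 7
  · norm_num at h
  · norm_num at h
  · have : jacobiSym ((2 : ℕ) : ℤ) 7 = 1 := by decide +kernel
    rw [this] at h; norm_num at h
  · simp
  · have : jacobiSym ((4 : ℕ) : ℤ) 7 = 1 := by decide +kernel
    rw [this] at h; norm_num at h
  · simp
  · simp

theorem K0_Fn {m : ℕ} (h : K0 m) : Fn m ∧ m % 3 = 1 ∧ Sp7 m := by
  rcases h with h | h
  · exact ⟨Or.inl ⟨h.1, h.2.1⟩, h.2.2.1, h.2.2.2⟩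
  · exact ⟨Or.inr h.1, h.2.1, h.2.2⟩

theorem K3_Fn {m : ℕ} (h : K3 m) : Fn m ∧ 3 ∣ m ∧ Sp7 m := by
  rcases h with h | h
  · exact ⟨Or.inl ⟨h.1, h.2.1⟩, h.2.2.2, h.2.2.1⟩
  · exact ⟨Or.inr h.1, h.2.2, h.2.1⟩

theorem K7_Fn {m : ℕ} (h : K7 m) : Fn m ∧ m % 3 = 1 ∧ 7 ∣ m := by
  rcases h with h | h
  · exact ⟨Or.inl ⟨h.1, h.2.1⟩, h.2.2.2, h.2.2.1⟩
  · exact ⟨Or.inr h.1, h.2.2, h.2.1⟩

theorem K21_Fn {m : ℕ} (h : K21 m) : Fn m ∧ 3 ∣ m ∧ 7 ∣ m := by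
  rcases h with h | h
  · exact ⟨Or.inl ⟨h.1, h.2.1⟩, h.2.2.2, h.2.2.1⟩
  · exact ⟨Or.inr h.1, h.2.2, h.2.1⟩

theorem I7_mul {A m : ℕ} (hA : jacobiSym A 7 = -1) (hm : Sp7 m) : I7 (A * m) := by
  have h1 := j_cases hA
  unfold Sp7 at hm
  unfold I7
  rw [Nat.mul_mod]
  rcases h1 with h1 | h1 | h1 <;> rcases hm with hm | hm | hm <;> rw [h1, hm] <;> norm_num

theorem P3_of3 {A m : ℕ} (h : Pr3 A m) : P3 A m ∧ I7 (A * m) := by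
  obtain ⟨h1, hc⟩ := h
  rcases h1 with ⟨hA, hm⟩ | ⟨hA, hm⟩
  · obtain ⟨a, b, c⟩ := K3_Fn hm
    exact ⟨⟨⟨Or.inr hA.1, a, hc⟩, hA.2.2, b.mul_left A⟩, I7_mul hA.2.2 c⟩
  · obtain ⟨a, b, c⟩ := K0_Fn hm
    exact ⟨⟨⟨Or.inr hA.1, a, hc⟩, hA.2.2, hA.2.1.mul_right m⟩, I7_mul hA.2.2 c⟩

theorem P3_of21 {A m : ℕ} (h : Pr21 A m) : P3 A m ∧ 7 ∣ A * m := by
  obtain ⟨h1, hc⟩ := h
  rcases h1 with ⟨hA, hm⟩ | ⟨hA, hm⟩
  · obtain ⟨a, b, c⟩ := K21_Fn hm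
    exact ⟨⟨⟨Or.inr hA.1, a, hc⟩, hA.2.2, b.mul_left A⟩, c.mul_left A⟩
  · obtain ⟨a, b, c⟩ := K7_Fn hm
    exact ⟨⟨⟨Or.inr hA.1, a, hc⟩, hA.2.2, hA.2.1.mul_right m⟩, c.mul_left A⟩

theorem EH_of {A m : ℕ} (h : Pp A m) (hj : jacobiSym A 7 = -1) : ∃ E : V3 → ℤ,
    EH (A * m) E ∧ ∀ v ∈ vec7 ((A * m : ℕ) : ℤ), ∀ w ∈ vec7 ((A * m : ℕ) : ℤ),
      sgnE 1 A (A * m) (((A * m : ℕ) + ip7 v w) / 2) = E v * E w := by
  obtain ⟨E, -, h2, h3, h4, h5⟩ := E_ex h (j_nd hj)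
  refine ⟨E, ⟨h3, h4, fun v hv => ?_⟩, h2⟩
  rw [h5 v hv, hj]
  ring

/-- **BIL3** -/
theorem t_BIL3 : S_BIL3 := by
  intro A m h
  obtain ⟨⟨hp, hj, h3⟩, hI⟩ := P3_of3 h
  obtain ⟨E, hE, hS⟩ := EH_of hp hj
  have h9 : ¬ 9 ∣ A * m := sqf_of hp.n Nat.prime_three (by norm_num)
  rw [P7_eq hS, sq_three hE h3 h9]
  have hn7 : ¬ 7 ∣ A * m := Pool.Agent.N970.P21G.I7_nd hI
  have hn := hp.n
  set n := A * m with hn'
  -- the two halves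
  have h1 : ∑ q ∈ (vec7 (n : ℤ) ×ˢ vec7 (n : ℤ)).filter (fun q => ¬ 3 ∣ Tq n q),
      E q.1 * E q.2 * 1 = 2 * ∑ q ∈ (vec7 (n : ℤ) ×ˢ vec7 (n : ℤ)).filter
        (fun q => 7 ∣ Tq n q ∧ ¬ 3 ∣ Tq n q), E q.1 * E q.2 * 1 := by
    have h2 := sum_neg (n := n) (E := E) (c := fun _ _ => (1 : ℤ)) (fun _ _ => rfl) hE
      (Q := fun T => 7 ∣ n - T ∧ ¬ 3 ∣ T) (Q' := fun T => 7 ∣ T ∧ ¬ 3 ∣ T) (by
        intro T hT
        have e : n - (n - T) = T := by omega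
        rw [e]
        have e3 : 3 ∣ n - T ↔ 3 ∣ T := by omega
        rw [e3])
    rw [two_mul]
    nth_rw 1 [← h2]
    rw [← sum_filter_add_sum_filter_not _ (fun q => 7 ∣ Tq n q), filter_filter, filter_filter,
      add_comm]
    congr 1
    · refine sum_congr (filter_congr fun q hq => ?_) fun _ _ => rfl
      have h4 := Tq_seven hq
      have h5 := (Tq_spec hq).2.1
      constructor
      · rintro ⟨a, b⟩
        exact ⟨h4.resolve_left b, a⟩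
      · rintro ⟨a, b⟩
        refine ⟨b, fun c => hn7 ?_⟩
        omega
    · refine sum_congr (filter_congr fun q hq => ?_) fun _ _ => rfl
      tauto
  rw [h1, sum_T (S := fun z => sgnE 1 A n z) (c := fun _ _ => (1 : ℤ))
    (Q := fun T => 7 ∣ T ∧ ¬ 3 ∣ T) (fun h => h.2 h3) hS]
  have h5 : ∀ T ∈ (range n).filter (fun T => 7 ∣ T ∧ ¬ 3 ∣ T), sgnE 1 A n T *
      ∑ q ∈ (vec7 (n : ℤ) ×ˢ vec7 (n : ℤ)).filter (fun q => ip7 q.1 q.2 = 2 * T - (n : ℤ)),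
        (1 : ℤ) = 4 * (sgnE 1 A n T * L7 n (2 * T - (n : ℕ)) (4 * (n - T) * T)) := by
    intro T hT
    rw [mem_filter, mem_range] at hT
    have hT0 : 0 < T := Nat.pos_of_ne_zero fun h => hT.2.2 (by rw [h]; exact dvd_zero 3)
    have hD : 0 < 4 * (n - T) * T := by
      have : 0 < n - T := by omega
      positivity
    rw [card_c7, pc7g hn (four_dvd hn) hI hD (DD hT.1)]
    ring
  rw [sum_congr rfl h5, ← mul_sum]
  ring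

/-- **BIL21** -/
theorem t_BIL21 : S_BIL21 := by
  intro A m h
  obtain ⟨⟨hp, hj, h3⟩, h7⟩ := P3_of21 h
  obtain ⟨E, hE, hS⟩ := EH_of hp hj
  have h9 : ¬ 9 ∣ A * m := sqf_of hp.n Nat.prime_three (by norm_num)
  rw [P7_eq hS, sq_three hE h3 h9]
  have hn := hp.n
  set n := A * m with hn'
  have h1 : ∑ q ∈ (vec7 (n : ℤ) ×ˢ vec7 (n : ℤ)).filter (fun q => ¬ 3 ∣ Tq n q),
      E q.1 * E q.2 * 1 = ∑ q ∈ (vec7 (n : ℤ) ×ˢ vec7 (n : ℤ)).filter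
        (fun q => 7 ∣ Tq n q ∧ ¬ 3 ∣ Tq n q), E q.1 * E q.2 * 1 := by
    refine sum_congr (filter_congr fun q hq => ?_) fun _ _ => rfl
    have h4 := Tq_seven hq
    have h5 := (Tq_spec hq).2.1
    constructor
    · intro a
      exact ⟨by omega, a⟩
    · exact fun a => a.2
  rw [h1, sum_T (S := fun z => sgnE 1 A n z) (c := fun _ _ => (1 : ℤ))
    (Q := fun T => 7 ∣ T ∧ ¬ 3 ∣ T) (fun h => h.2 h3) hS]
  have h5 : ∀ T ∈ (range n).filter (fun T => 7 ∣ T ∧ ¬ 3 ∣ T), sgnE 1 A n T *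
      ∑ q ∈ (vec7 (n : ℤ) ×ˢ vec7 (n : ℤ)).filter (fun q => ip7 q.1 q.2 = 2 * T - (n : ℤ)),
        (1 : ℤ) = 2 * (sgnE 1 A n T * L7r n (2 * T - (n : ℕ)) (4 * (n - T) * T)) := by
    intro T hT
    rw [mem_filter, mem_range] at hT
    have hT0 : 0 < T := Nat.pos_of_ne_zero fun h => hT.2.2 (by rw [h]; exact dvd_zero 3)
    have hD : 0 < 4 * (n - T) * T := by
      have : 0 < n - T := by omega
      positivity
    have hc : (c7 n (2 * T - (n : ℕ)) n : ℤ) = 2 * L7r n (2 * T - (n : ℕ)) (4 * (n - T) * T) := by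
      rcases hn with ⟨hs, h4⟩ | hn
      · exact t_PC7r n n _ _ hs h4 h7 hD (DD hT.1)
      · exact t_PC7rE n n _ _ hn h7 (four_dvd (Or.inr hn) (by
          obtain ⟨k, hk, -⟩ := hn
          exact ⟨2 * k, by rw [hk]; ring⟩)) hD (DD hT.1)
    rw [card_c7, hc]
    ring
  rw [sum_congr rfl h5, ← mul_sum]
  ring

end Pool.Agent.N975.P21G
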