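import Pool.Agent.N975.P21G.Rot7
import Pool.Agent.N970.RQ.Bil7b

/-!
# Signed sums over the vectors in the isotropic lines modulo `3` (project P21G)
-/

set_option autoImplicit false

namespace Pool.Agent.N975.P21G

open Finset
open Pool.Agent.N969.P15 (V3)
open Pool.Agent.N969.RQ (Fd ip7 vec7 c7)
open Pool.Agent.N970.P21G (mem7 t_CP3 pc7g t_PC7r t_PC7rE)
open Pool.Agent.N970.RQ (frm7 rot7 wot7 rot7_rot7 wot7_wot7 oo oo_mul oo_rot oo_wot L3 M3 L3_rot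
  L3_wot cl sum_cl L3_cast dvd3_iff b3 b3_cast ip7_eq cast_two dvd28 cl_eq cl_dvd)
open Pool.Agent.N877.P21G (Fn I7 L7 L37 L7r cp3 w7 P7)
open Pool.Agent.N969.P17G (sgnE)

/-- the symmetries of a sign function of a discriminant in which `7` is inert -/
structure EH (n : ℕ) (E : V3 → ℤ) : Prop where
  neg : ∀ v ∈ vec7 (n : ℤ), E (-v) = E v
  rot : ∀ v ∈ vec7 (n : ℤ), E (rot7 v) = E v
  wot : ∀ v ∈ vec7 (n : ℤ), E (wot7 v) = - E v

/-- the signed sum over the vectors orthogonal to a line -/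
noncomputable def F (n : ℕ) (E : V3 → ℤ) (i : Fin 4) : ℤ :=
  ∑ v ∈ vec7 (n : ℤ), (if (3 : ℤ) ∣ L3 i v then 1 else 0) * E v

theorem rr4 : ∀ j : Fin 4, (![2, 3, 0, 1] : Fin 4 → Fin 4) (![2, 3, 0, 1] j) = j := by decide

theorem ww4 : ∀ j : Fin 4, (![3, 2, 1, 0] : Fin 4 → Fin 4) (![3, 2, 1, 0] j) = j := by decide

variable {n : ℕ} {E : V3 → ℤ}

theorem F_rot (h : EH n E) (i : Fin 4) : F n E i = F n E (![2, 3, 0, 1] i) := by
  unfold F
  refine sum_nbij' rot7 rot7 (fun v hv => mem_rot hv) (fun v hv => mem_rot hv)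
    (fun v _ => rot7_rot7 v) (fun v _ => rot7_rot7 v) ?_
  intro v hv
  have h3 := L3_rot (![2, 3, 0, 1] i) v
  rw [rr4] at h3
  rw [h.rot v hv]
  by_cases h4 : (3 : ℤ) ∣ L3 i v
  · rw [if_pos h4, if_pos (h3.2 h4)]
  · rw [if_neg h4, if_neg (fun h' => h4 (h3.1 h'))]

theorem F_wot (h : EH n E) (i : Fin 4) : F n E i = - F n E (![3, 2, 1, 0] i) := by
  unfold F
  rw [← sum_neg_distrib]
  refine sum_nbij' wot7 wot7 (fun v hv => mem_wot hv) (fun v hv => mem_wot hv)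
    (fun v _ => wot7_wot7 v) (fun v _ => wot7_wot7 v) ?_
  intro v hv
  have h3 := L3_wot (![3, 2, 1, 0] i) v
  rw [ww4] at h3
  rw [h.wot v hv]
  by_cases h4 : (3 : ℤ) ∣ L3 i v
  · rw [if_pos h4, if_pos (h3.2 h4)]; ring
  · rw [if_neg h4, if_neg (fun h' => h4 (h3.1 h'))]; ring

theorem F_cl : ∑ i, F n E i * F n E i =
    ∑ q ∈ vec7 (n : ℤ) ×ˢ vec7 (n : ℤ), E q.1 * E q.2 * cl q.1 q.2 := by
  have e : ∀ i : Fin 4, F n E i * F n E i = ∑ q ∈ vec7 (n : ℤ) ×ˢ vec7 (n : ℤ),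
      E q.1 * E q.2 * ((if (3 : ℤ) ∣ L3 i q.1 then 1 else 0) *
        (if (3 : ℤ) ∣ L3 i q.2 then 1 else 0)) := by
    intro i
    unfold F
    rw [sum_mul_sum, ← sum_product']
    refine sum_congr rfl fun q _ => ?_
    ring
  rw [sum_congr rfl fun i _ => e i, sum_comm]
  refine sum_congr rfl fun q _ => ?_
  unfold cl
  rw [mul_sum]

/-- the factor of the weight -/
def cw (n : ℕ) : ℤ := if 3 ∣ n then 2 else 1

theorem w7_L3 (v : V3) : w7 n v =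
    cw n * ((if (3 : ℤ) ∣ L3 0 v then 1 else 0) - (if (3 : ℤ) ∣ L3 3 v then 1 else 0)) := by
  unfold w7 cw
  have a0 : L3 0 v = v 1 + v 0 := by simp [L3]; ring
  have a3 : (3 : ℤ) ∣ L3 3 v ↔ (3 : ℤ) ∣ v 1 - v 0 := by
    have : L3 3 v = -(v 1 - v 0) := by simp [L3]
    rw [this, dvd_neg]
  rw [a0]
  simp only [a3]

theorem sum_w7 : ∑ v ∈ vec7 (n : ℤ), w7 n v * E v = cw n * (F n E 0 - F n E 3) := by
  unfold F
  rw [← sum_sub_distrib, mul_sum]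
  refine sum_congr rfl fun v _ => ?_
  rw [w7_L3]
  ring

/-- the weighted signed pair sum as a sum over the common lines -/
theorem sq_w7 (h : EH n E) : (∑ v ∈ vec7 (n : ℤ), w7 n v * E v) ^ 2 = cw n ^ 2 *
    ∑ q ∈ vec7 (n : ℤ) ×ˢ vec7 (n : ℤ), E q.1 * E q.2 * cl q.1 q.2 := by
  have r0 := F_rot h 0
  have r1 := F_rot h 1
  have w0 := F_wot h 0
  simp only [Matrix.cons_val_zero, Matrix.cons_val_one] at r0 r1 w0
  have r0' : F n E 2 = F n E 0 := r0.symm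
  have w0' : F n E 3 = - F n E 0 := by
    have : F n E 0 = - F n E 3 := w0
    linarith
  have r1' : F n E 1 = - F n E 0 := by
    have : F n E 1 = F n E 3 := r1
    linarith
  rw [← F_cl, sum_w7, Fin.sum_univ_four, r0', w0', r1']
  ring

/-- the sum of all the signs vanishes -/
theorem sum_E (h : EH n E) : ∑ v ∈ vec7 (n : ℤ), E v = 0 := by
  have : ∑ v ∈ vec7 (n : ℤ), E v = - ∑ v ∈ vec7 (n : ℤ), E v := by
    rw [← sum_neg_distrib]
    refine sum_nbij' wot7 wot7 (fun v hv => mem_wot hv) (fun v hv => mem_wot hv)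
      (fun v _ => wot7_wot7 v) (fun v _ => wot7_wot7 v) ?_
    intro v hv
    rw [h.wot v hv]
    ring
  linarith

/-! ### the sum over the inner products -/

theorem cs {v w : V3} (hv : v ∈ vec7 (n : ℤ)) (hw : w ∈ vec7 (n : ℤ)) :
    0 ≤ (n : ℤ) + ip7 v w ∧ (n : ℤ) + ip7 v w ≤ 2 * n := by
  rw [mem7] at hv hw
  have e1 : ip7 (v + w) (v + w) = 7 * (v 0 + w 0) ^ 2 +
      (2 * (v 1 + w 1) + (v 2 + w 2)) ^ 2 + 7 * (v 2 + w 2) ^ 2 := by
    simp only [ip7, Pi.add_apply]; ring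
  have e2 : ip7 (v + w) (v + w) = ip7 v v + 2 * ip7 v w + ip7 w w := by
    simp only [ip7, Pi.add_apply]; ring
  have e3 : ip7 (v - w) (v - w) = 7 * (v 0 - w 0) ^ 2 +
      (2 * (v 1 - w 1) + (v 2 - w 2)) ^ 2 + 7 * (v 2 - w 2) ^ 2 := by
    simp only [ip7, Pi.sub_apply]; ring
  have e4 : ip7 (v - w) (v - w) = ip7 v v - 2 * ip7 v w + ip7 w w := by
    simp only [ip7, Pi.sub_apply]; ring
  have p1 : 0 ≤ ip7 (v + w) (v + w) := by rw [e1]; positivity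
  have p2 : 0 ≤ ip7 (v - w) (v - w) := by rw [e3]; positivity
  rw [e2, hv, hw] at p1
  rw [e4, hv, hw] at p2
  constructor <;> linarith

/-- the number `T` of a pair -/
def Tq (n : ℕ) (q : V3 × V3) : ℕ := (((n : ℤ) + ip7 q.1 q.2) / 2).toNat

theorem Tq_spec {q : V3 × V3} (hq : q ∈ vec7 (n : ℤ) ×ˢ vec7 (n : ℤ)) :
    2 * (Tq n q : ℤ) = n + ip7 q.1 q.2 ∧ Tq n q ≤ n ∧
      ((n : ℤ) + ip7 q.1 q.2) / 2 = Tq n q := by
  rw [mem_product] at hq
  obtain ⟨h1, h2⟩ := cs hq.1 hq.2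
  have h3 := par (mem7.1 hq.1) (mem7.1 hq.2)
  have h4 : (Tq n q : ℤ) = ((n : ℤ) + ip7 q.1 q.2) / 2 := by
    unfold Tq
    rw [Int.toNat_of_nonneg (by omega)]
  refine ⟨by rw [h4, h3], ?_, h4.symm⟩
  have : (Tq n q : ℤ) ≤ n := by omega
  exact_mod_cast this

/-- the sum over the pairs as a sum over `T` -/
theorem sum_T {S : ℤ → ℤ} {c : V3 → V3 → ℤ} {Q : ℕ → Prop} [DecidablePred Q] (hQ : ¬ Q n)
    (hS : ∀ v ∈ vec7 (n : ℤ), ∀ w ∈ vec7 (n : ℤ), S (((n : ℤ) + ip7 v w) / 2) = E v * E w) :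
    ∑ q ∈ (vec7 (n : ℤ) ×ˢ vec7 (n : ℤ)).filter (fun q => Q (Tq n q)),
      E q.1 * E q.2 * c q.1 q.2 =
    ∑ T ∈ (range n).filter Q, S T *
      ∑ q ∈ (vec7 (n : ℤ) ×ˢ vec7 (n : ℤ)).filter (fun q => ip7 q.1 q.2 = 2 * T - (n : ℤ)),
        c q.1 q.2 := by
  rw [← sum_fiberwise_of_maps_to (s := (vec7 (n : ℤ) ×ˢ vec7 (n : ℤ)).filter
    (fun q => Q (Tq n q))) (t := (range n).filter Q) (g := Tq n)]
  · refine sum_congr rfl fun T hT => ?_
    rw [mem_filter, mem_range] at hT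
    rw [mul_sum, filter_filter]
    have e : (vec7 (n : ℤ) ×ˢ vec7 (n : ℤ)).filter (fun q => Q (Tq n q) ∧ Tq n q = T) =
        (vec7 (n : ℤ) ×ˢ vec7 (n : ℤ)).filter (fun q => ip7 q.1 q.2 = 2 * T - (n : ℤ)) := by
      refine filter_congr fun q hq => ?_
      obtain ⟨h1, -, -⟩ := Tq_spec hq
      constructor
      · rintro ⟨-, h2⟩
        rw [h2] at h1
        linarith
      · intro h2
        have h3 : Tq n q = T := by
          have : (Tq n q : ℤ) = T := by linarith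
          exact_mod_cast this
        exact ⟨by rw [h3]; exact hT.2, h3⟩
    rw [e]
    refine sum_congr rfl fun q hq => ?_
    rw [mem_filter] at hq
    have h1 := hS q.1 (mem_product.1 hq.1).1 q.2 (mem_product.1 hq.1).2
    rw [hq.2] at h1
    have h2 : ((n : ℤ) + (2 * T - (n : ℤ))) / 2 = T := by omega
    rw [h2] at h1
    rw [h1]
  · intro q hq
    rw [mem_filter] at hq ⊢
    refine ⟨mem_range.2 (lt_of_le_of_ne (Tq_spec hq.1).2.1 ?_), hq.2⟩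
    intro h
    rw [h] at hq
    exact hQ hq.2

/-- the map `w ↦ -w` -/
theorem Tq_neg {q : V3 × V3} (hq : q ∈ vec7 (n : ℤ) ×ˢ vec7 (n : ℤ)) :
    Tq n (q.1, -q.2) = n - Tq n q := by
  have h1 := Tq_spec hq
  rw [mem_product] at hq
  have h2 := Tq_spec (n := n) (q := (q.1, -q.2)) (mem_product.2 ⟨hq.1, mem_neg hq.2⟩)
  simp only [ip_neg] at h2
  omega

theorem sum_neg {c : V3 → V3 → ℤ} (hc : ∀ v w, c v (-w) = c v w) (h : EH n E) {Q Q' : ℕ → Prop}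
    [DecidablePred Q] [DecidablePred Q'] (hQ : ∀ T ≤ n, Q (n - T) ↔ Q' T) :
    ∑ q ∈ (vec7 (n : ℤ) ×ˢ vec7 (n : ℤ)).filter (fun q => Q (Tq n q)),
      E q.1 * E q.2 * c q.1 q.2 =
    ∑ q ∈ (vec7 (n : ℤ) ×ˢ vec7 (n : ℤ)).filter (fun q => Q' (Tq n q)),
      E q.1 * E q.2 * c q.1 q.2 := by
  have inv : ∀ q : V3 × V3, (q.1, - -q.2) = q := fun q => by rw [neg_neg]
  refine sum_nbij' (fun q => (q.1, -q.2)) (fun q => (q.1, -q.2)) ?_ ?_ (fun q _ => inv q)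
    (fun q _ => inv q) ?_
  · intro q hq
    rw [mem_filter] at hq ⊢
    have hm := mem_product.1 hq.1
    refine ⟨mem_product.2 ⟨hm.1, mem_neg hm.2⟩, ?_⟩
    rw [Tq_neg hq.1, ← hQ _ (Nat.sub_le _ _), Nat.sub_sub_self (Tq_spec hq.1).2.1]
    exact hq.2
  · intro q hq
    rw [mem_filter] at hq ⊢
    have hm := mem_product.1 hq.1
    refine ⟨mem_product.2 ⟨hm.1, mem_neg hm.2⟩, ?_⟩
    rw [Tq_neg hq.1]
    exact (hQ _ (Tq_spec hq.1).2.1).2 hq.2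
  · intro q hq
    rw [mem_filter] at hq
    have hm := mem_product.1 hq.1
    show E q.1 * E q.2 * c q.1 q.2 = E q.1 * E (-q.2) * c q.1 (-q.2)
    rw [h.neg _ hm.2, hc]

theorem L3_neg (i : Fin 4) (v : V3) : (3 : ℤ) ∣ L3 i (-v) ↔ (3 : ℤ) ∣ L3 i v := by
  have e : L3 i (-v) = - L3 i v := by
    match i with
    | 0 => simp [L3]; ring
    | 1 => simp [L3]; ring
    | 2 => simp [L3]; ring
    | 3 => simp [L3]; ring
  rw [e, dvd_neg]

theorem cl_neg (v w : V3) : cl v (-w) = cl v w := by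
  unfold cl
  simp only [L3_neg]

/-- the pair sums -/
theorem P7_eq {A m : ℕ} (hE : ∀ v ∈ vec7 ((A * m : ℕ) : ℤ), ∀ w ∈ vec7 ((A * m : ℕ) : ℤ),
      sgnE 1 A (A * m) (((A * m : ℕ) + ip7 v w) / 2) = E v * E w) :
    P7 A (A * m) = (∑ v ∈ vec7 ((A * m : ℕ) : ℤ), w7 (A * m) v * E v) ^ 2 := by
  unfold P7
  rw [pow_two, sum_mul_sum]
  refine sum_congr rfl fun v hv => sum_congr rfl fun w hw => ?_
  rw [hE v hv w hw]
  ring

end Pool.Agent.N975.P21G
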