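import Pool.Agent.N970.RQ.Orth7
import Pool.Agent.N871.P15G.Van

/-!
# The sign functions on the vectors of the lattice ramified at `7` (project P21G)
-/

set_option autoImplicit false

namespace Pool.Agent.N975.P21G

open Finset
open Pool.Agent.N969.P15 (V3 Ev c2)
open Pool.Agent.N969.RQ (Fd ip7 vec7)
open Pool.Agent.N970.P21G (mem7)
open Pool.Agent.N970.RQ (frm7 nK rot7 wot7)
open Pool.Agent.N969.P17G (sgp sg2 sgnE t2)
open Pool.Agent.N844.P17G (Iso sig rel)
open Pool.Agent.N970.P17G (sgp_rel hs hs_mul hs_sq_mul hs_two hs_norm hs_pm hs_near hs_neg_one c2_pm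
  t2_pm t2_sq sg2_ne sg2_zero sqrt_neg_seven sq8)
open Pool.Agent.N871.P15G (lo sgp_sig c2_neg_pm prod_pm)
open Pool.Agent.N970.Sgn
open Pool.Agent.N877.P21G (Fn)

theorem ip_neg (v w : V3) : ip7 v (-w) = - ip7 v w := by
  simp only [ip7, Pi.neg_apply]; ring

theorem neg_ip (v w : V3) : ip7 (-v) w = - ip7 v w := by
  simp only [ip7, Pi.neg_apply]; ring

/-- the sum is even -/
theorem par {n : ℤ} {v w : V3} (hv : ip7 v v = n) (hw : ip7 w w = n) :
    2 * ((n + ip7 v w) / 2) = n + ip7 v w := by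
  have h1 : v 0 % 2 = n % 2 := by
    have : (v 0 * v 0) % 2 = n % 2 := by rw [← hv]; unfold ip7; omega
    rcases Int.emod_two_eq_zero_or_one (v 0) with h | h <;>
      simp [Int.mul_emod, h] at this ⊢ <;> omega
  have h2 : w 0 % 2 = n % 2 := by
    have : (w 0 * w 0) % 2 = n % 2 := by rw [← hw]; unfold ip7; omega
    rcases Int.emod_two_eq_zero_or_one (w 0) with h | h <;>
      simp [Int.mul_emod, h] at this ⊢ <;> omega
  have h3 : (v 0 * w 0) % 2 = n % 2 := by
    rw [Int.mul_emod, h1, h2]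
    rcases Int.emod_two_eq_zero_or_one n with h | h <;> rw [h] <;> rfl
  have h4 : (n + ip7 v w) % 2 = 0 := by unfold ip7; omega
  omega

/-! ### the odd primes -/



/-- a sign function -/
def HasP (n p : ℕ) : Prop := ∃ f : V3 → ℤ, (∀ v, f v = 1 ∨ f v = -1) ∧
  ∀ v ∈ vec7 (n : ℤ), ∀ w ∈ vec7 (n : ℤ), lo n p ((n + ip7 v w) / 2) = f v * f w

theorem has_odd {n p : ℕ} (hp : p.Prime) (h2 : p ≠ 2) (h3 : p ≠ 7) (hn : p ∣ n)
    (hn2 : ¬ p ^ 2 ∣ n) : HasP n p := by
  have : Fact p.Prime := ⟨hp⟩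
  have hK : ¬ (p : ℤ) ∣ 14 := nK (l := p) h2 h3
  have hpn : (p : ℤ) ∣ n := by exact_mod_cast hn
  have hn2' : ¬ (p : ℤ) ^ 2 ∣ n := fun h => hn2 (by exact_mod_cast h)
  have iv : ∀ v ∈ vec7 (n : ℤ), Iso ip7 p v := fun v hv => iso_of frm7 (mem7.1 hv) hpn hn2'
  classical
  refine ⟨fun v => if v ∈ vec7 (n : ℤ) then psi ip7 p v else 1, ?_, ?_⟩
  · intro v
    show (if v ∈ vec7 (n : ℤ) then psi ip7 p v else 1) = 1 ∨ (if v ∈ vec7 (n : ℤ) then psi ip7 p v else 1) = -1
    split_ifs with h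
    · exact psi_pm frm7 h2 hK (iv v h)
    · exact Or.inl rfl
  · intro v hv w hw
    simp only [if_pos hv, if_pos hw]
    rw [lo, if_neg h2, psi_mul frm7 h2 hK (iv v hv) (iv w hw)]
    exact sgp_sig frm7 h2 hK hn hn2 (mem7.1 hv) (mem7.1 hw)
      (par (mem7.1 hv) (mem7.1 hw))

/-! ### the prime two -/

/-- the cocycle identity -/
theorem cocyc {N : ℤ} {x y z : V3} (hx : ip7 x x = N) (hy : ip7 y y = N) (hz : ip7 z z = N) :
    2 * ((N + ip7 x y) * (N + ip7 y z) * (N + ip7 x z)) =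
      (14 * det3 x y z) ^ 2 + N * (N + (ip7 x y + ip7 y z + ip7 x z)) ^ 2 := by
  have h := frm7.gram x y z
  rw [hx, hy, hz] at h
  linear_combination h

/-- the comparison with an arbitrary third vector -/
theorem compare (x y z : V3) :
    (ip7 x x * ip7 y y - ip7 x y ^ 2) * (ip7 x x * ip7 z z - ip7 x z ^ 2) =
      (ip7 x x * ip7 y z - ip7 x y * ip7 x z) ^ 2 + ip7 x x * (14 * det3 x y z) ^ 2 := by
  have h := frm7.gram x y z
  linear_combination ip7 x x * h

/-- the sign of a pair of vectors of norm `n` -/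
noncomputable def KK (n : ℕ) (x y : V3) : ℤ :=
  if (n : ℤ) + ip7 x y = 0 then c2 n (-1) else t2 n * hs n ((n : ℤ) + ip7 x y)

theorem KK_pm (n : ℕ) (x y : V3) : KK n x y = 1 ∨ KK n x y = -1 := by
  unfold KK
  split_ifs with h
  · exact c2_neg_pm n
  · rcases t2_pm n with h1 | h1 <;> rcases hs_pm n h with h2 | h2 <;> rw [h1, h2] <;> norm_num

theorem KK_sq (n : ℕ) (x y : V3) : KK n x y * KK n x y = 1 := by
  rcases KK_pm n x y with h | h <;> rw [h] <;> norm_num

theorem KK_comm (n : ℕ) (x y : V3) : KK n x y = KK n y x := by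
  unfold KK
  rw [frm7.symm x y]

/-- equality in the Cauchy-Schwarz inequality -/
theorem eq_neg {n : ℕ} {x y : V3} (hx : ip7 x x = n) (hy : ip7 y y = n)
    (h : (n : ℤ) + ip7 x y = 0) : y = -x := by
  have h1 : ip7 (x + y) (x + y) = 0 := by
    have e : ip7 (x + y) (x + y) = ip7 x x + 2 * ip7 x y + ip7 y y := by
      simp only [ip7, Pi.add_apply]; ring
    rw [e, hx, hy]
    linarith
  have h2 : ip7 (x + y) (x + y) = 7 * (x 0 + y 0) ^ 2 +
      (2 * (x 1 + y 1) + (x 2 + y 2)) ^ 2 + 7 * (x 2 + y 2) ^ 2 := by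
    simp only [ip7, Pi.add_apply]; ring
  rw [h1] at h2
  have a0 : (x 0 + y 0) ^ 2 = 0 := by
    nlinarith [sq_nonneg (x 0 + y 0), sq_nonneg (2 * (x 1 + y 1) + (x 2 + y 2)),
      sq_nonneg (x 2 + y 2)]
  have a2 : (x 2 + y 2) ^ 2 = 0 := by
    nlinarith [sq_nonneg (x 0 + y 0), sq_nonneg (2 * (x 1 + y 1) + (x 2 + y 2)),
      sq_nonneg (x 2 + y 2)]
  have a1 : (2 * (x 1 + y 1) + (x 2 + y 2)) ^ 2 = 0 := by
    nlinarith [sq_nonneg (x 0 + y 0), sq_nonneg (2 * (x 1 + y 1) + (x 2 + y 2)),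
      sq_nonneg (x 2 + y 2)]
  rw [sq_eq_zero_iff] at a0 a1 a2
  funext i
  fin_cases i
  · show y 0 = - x 0
    linarith
  · show y 1 = - x 1
    linarith
  · show y 2 = - x 2
    linarith

/-- a vector of norm seven -/
def e7 : V3 := ![1, 0, 0]

theorem ip_e7 : ip7 e7 e7 = 7 := by
  unfold ip7 e7
  simp

/-- the symbol of a vector and its opposite with a third one -/
theorem KK_neg {n : ℕ} (hn : Ev n) {x y : V3} (hx : ip7 x x = n) (hy : ip7 y y = n) :
    KK n x y * KK n (-x) y = c2 n (-1) := by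
  have hn0 : (n : ℤ) ≠ 0 := by
    obtain ⟨m, rfl, hs, _⟩ := hn
    have := hs.ne_zero
    exact_mod_cast (by omega : 4 * m ≠ 0)
  have hself : ∀ z : V3, ip7 z z = n → KK n z z = 1 := by
    intro z hz
    unfold KK
    rw [hz, if_neg (by intro h; apply hn0; linarith)]
    have e : (n : ℤ) + n = 2 * n := by ring
    rw [e, hs_mul n two_ne_zero hn0, hs_two]
    have h1 : hs n n = 1 := by
      have := hs_norm hn (x := 0) (y := 1) (by simpa using hn0)
      simpa using this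
    rw [h1, mul_one, t2_sq]
  have hopp : ∀ z : V3, ip7 z z = n → KK n (-z) z = c2 n (-1) := by
    intro z hz
    unfold KK
    rw [neg_ip, hz, if_pos (by ring)]
  by_cases h1 : (n : ℤ) + ip7 x y = 0
  · have := eq_neg hx hy h1
    subst this
    have h2 : ip7 (-x) (-x) = n := hy
    rw [hself (-x) h2, KK_comm n x (-x), hopp x hx, mul_one]
  by_cases h2 : (n : ℤ) + ip7 (-x) y = 0
  · have hx' : ip7 (-x) (-x) = n := by rw [neg_ip, ip_neg, neg_neg, hx]
    have := eq_neg hx' hy h2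
    rw [neg_neg] at this
    subst this
    rw [hself y hx, hopp y hx, one_mul]
  · unfold KK
    rw [if_neg h1, if_neg h2]
    have e1 : t2 n * hs n ((n : ℤ) + ip7 x y) * (t2 n * hs n ((n : ℤ) + ip7 (-x) y)) =
        hs n (((n : ℤ) + ip7 x y) * ((n : ℤ) + ip7 (-x) y)) := by
      rw [hs_mul n h1 h2]
      linear_combination hs n ((n : ℤ) + ip7 x y) * hs n ((n : ℤ) + ip7 (-x) y) * t2_sq n
    rw [e1]
    have hg0 : ((n : ℤ) + ip7 x y) * ((n : ℤ) + ip7 (-x) y) ≠ 0 := mul_ne_zero h1 h2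
    have hcmp := compare x y e7
    rw [hx, hy, ip_e7] at hcmp
    have e2 : ((n : ℤ) + ip7 x y) * ((n : ℤ) + ip7 (-x) y) =
        n * n - ip7 x y ^ 2 := by rw [neg_ip]; ring
    rw [e2] at hg0 ⊢
    have hA0 : (n : ℤ) * 7 - ip7 x e7 ^ 2 ≠ 0 := by
      intro h
      obtain ⟨m, rfl, hs, hm⟩ := hn
      generalize ip7 x e7 = q at h
      push_cast at h
      rcases Int.emod_two_eq_zero_or_one q with hq | hq
      · obtain ⟨q1, rfl⟩ : ∃ t, q = 2 * t := ⟨q / 2, by omega⟩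
        have h3 : q1 ^ 2 = 7 * m := by
          apply mul_left_cancel₀ (by norm_num : (4 : ℤ) ≠ 0)
          linear_combination -h
        rcases Int.emod_two_eq_zero_or_one q1 with hq | hq
        · obtain ⟨q2, rfl⟩ : ∃ t, q1 = 2 * t := ⟨q1 / 2, by omega⟩
          have h5 : 4 * q2 ^ 2 = 7 * m := by linear_combination h3
          generalize q2 ^ 2 = r at h5
          omega
        · obtain ⟨r, hr⟩ := sq8 hq
          omega
      · obtain ⟨r, hr⟩ := sq8 hq
        omega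
    have hA : hs n ((n : ℤ) * 7 - ip7 x e7 ^ 2) = c2 n (-1) := by
      obtain ⟨k, hk⟩ := hs_near n (neg_ne_zero.2 hA0)
      obtain ⟨s, w, _, hw⟩ := sqrt_neg_seven k
      have h3 := hk (2 ^ 3 * (w * n))
      have e3 : -((n : ℤ) * 7 - ip7 x e7 ^ 2) + 2 ^ k * (2 ^ 3 * (w * n)) =
          ip7 x e7 ^ 2 + n * s ^ 2 := by
        have e4 : (2 : ℤ) ^ (k + 3) = 2 ^ k * 2 ^ 3 := by rw [pow_add]
        rw [e4] at hw
        linear_combination (-(n : ℤ)) * hw
      rw [e3] at h3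
      have h4 : ip7 x e7 ^ 2 + (n : ℤ) * s ^ 2 ≠ 0 := by
        intro h0
        have hpos : 0 < (n : ℤ) := lt_of_le_of_ne (by positivity) (Ne.symm hn0)
        have hs0 : s ≠ 0 := by
          rintro rfl
          omega
        nlinarith [sq_nonneg (ip7 x e7), mul_pos hpos (by positivity : 0 < s ^ 2)]
      rw [hs_norm hn h4] at h3
      have h5 : hs n ((n : ℤ) * 7 - ip7 x e7 ^ 2) =
          hs n (-1) * hs n (-((n : ℤ) * 7 - ip7 x e7 ^ 2)) := by
        rw [← hs_mul n (by norm_num) (neg_ne_zero.2 hA0)]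
        congr 1
        ring
      rw [h5, ← h3, mul_one, hs_neg_one]
    have hprod : hs n (((n : ℤ) * n - ip7 x y ^ 2) * (n * 7 - ip7 x e7 ^ 2)) = 1 := by
      rw [hcmp]
      apply hs_norm hn
      rw [← hcmp]
      exact mul_ne_zero hg0 hA0
    rw [hs_mul n hg0 hA0, hA] at hprod
    rcases c2_neg_pm n with h3 | h3 <;> rw [h3] at hprod ⊢ <;> linarith

/-- the cocycle relation -/
theorem KK_cocyc {n : ℕ} (hn : Ev n) {x y z : V3} (hx : ip7 x x = n)
    (hy : ip7 y y = n) (hz : ip7 z z = n) : KK n x y * KK n x z = KK n y z := by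
  have hn0 : (n : ℤ) ≠ 0 := by
    obtain ⟨m, rfl, hs, _⟩ := hn
    have := hs.ne_zero
    exact_mod_cast (by omega : 4 * m ≠ 0)
  have hneg : ∀ u w : V3, ip7 u u = n → ip7 w w = n →
      KK n (-u) w = c2 n (-1) * KK n u w := by
    intro u w hu hw
    have h1 := KK_neg hn hu hw
    rcases KK_pm n u w with h2 | h2 <;> rw [h2] at h1 ⊢ <;> linarith
  have hself : ∀ z : V3, ip7 z z = n → KK n z z = 1 := by
    intro z hz
    have h1 := KK_neg hn hz hz
    have h2 : KK n (-z) z = c2 n (-1) := by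
      unfold KK
      rw [neg_ip, hz, if_pos (by ring)]
    rw [h2] at h1
    rcases c2_neg_pm n with h3 | h3 <;> rw [h3] at h1 <;> linarith
  by_cases h1 : (n : ℤ) + ip7 x y = 0
  · have := eq_neg hx hy h1
    subst this
    rw [hneg x z hx hz]
    have h2 : KK n x (-x) = c2 n (-1) := by
      unfold KK
      rw [if_pos h1]
    rw [h2]
  by_cases h2 : (n : ℤ) + ip7 x z = 0
  · have := eq_neg hx hz h2
    subst this
    have h3 : KK n x (-x) = c2 n (-1) := by
      unfold KK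
      rw [if_pos h2]
    rw [KK_comm n y (-x), hneg x y hx hy, h3]
    ring
  by_cases h3 : (n : ℤ) + ip7 y z = 0
  · have := eq_neg hy hz h3
    subst this
    have h4 : KK n y (-y) = c2 n (-1) := by
      unfold KK
      rw [if_pos h3]
    rw [h4, KK_comm n x (-y), hneg y x hy hx, KK_comm n y x]
    linear_combination c2 n (-1) * KK_sq n x y
  · have h4 := cocyc hx hy hz
    have hne : 2 * (((n : ℤ) + ip7 x y) * ((n : ℤ) + ip7 y z) *
        ((n : ℤ) + ip7 x z)) ≠ 0 :=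
        mul_ne_zero two_ne_zero (mul_ne_zero (mul_ne_zero h1 h3) h2)
    have h5 : hs n (2 * (((n : ℤ) + ip7 x y) * ((n : ℤ) + ip7 y z) *
        ((n : ℤ) + ip7 x z))) = 1 := by
      rw [h4] at hne ⊢
      exact hs_norm hn hne
    rw [hs_mul n two_ne_zero (mul_ne_zero (mul_ne_zero h1 h3) h2),
      hs_mul n (mul_ne_zero h1 h3) h2, hs_mul n h1 h3, hs_two] at h5
    unfold KK
    rw [if_neg h1, if_neg h2, if_neg h3]
    rcases t2_pm n with a | a <;> rcases hs_pm n h1 with b | b <;> rcases hs_pm n h2 with c | c <;>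
      rcases hs_pm n h3 with d | d <;> rw [a, b, c, d] at h5 ⊢ <;> linarith

theorem sg_KK {n : ℕ} {x y : V3} {T : ℤ} (h : 2 * T = (n : ℤ) + ip7 x y) :
    sg2 1 n T = KK n x y := by
  unfold KK
  by_cases hT : T = 0
  · subst hT
    rw [sg2_zero, if_pos (by linarith)]
    simp
  · rw [sg2_ne hT, ← h, if_neg (by intro h0; apply hT; linarith),
      hs_mul n two_ne_zero hT, hs_two]
    linear_combination -hs n T * t2_sq n

theorem has_two {n : ℕ} (hn : Ev n) : HasP n 2 := by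
  by_cases hne : ∃ e, ip7 e e = n
  · obtain ⟨e, he⟩ := hne
    refine ⟨fun v => KK n e v, fun v => KK_pm n _ _, ?_⟩
    intro v hv w hw
    rw [lo, if_pos rfl, sg_KK (x := v) (y := w) (par (mem7.1 hv) (mem7.1 hw)),
      KK_cocyc hn he (mem7.1 hv) (mem7.1 hw)]
  · exact ⟨fun _ => 1, fun _ => Or.inl rfl, fun v hv => absurd ⟨_, mem7.1 hv⟩ hne⟩

/-! ### the products -/

theorem sgnE_lo (A n : ℕ) (T : ℤ) : sgnE 1 A n T = ∏ p ∈ A.primeFactors, lo n p T := rfl

/-- the sign of `A` is given by a sign function -/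
def HasS (A n : ℕ) : Prop := ∃ f : V3 → ℤ, (∀ v, f v = 1 ∨ f v = -1) ∧
  ∀ v ∈ vec7 (n : ℤ), ∀ w ∈ vec7 (n : ℤ), sgnE 1 A n ((n + ip7 v w) / 2) = f v * f w

theorem has_of {A n : ℕ} (h : ∀ p ∈ A.primeFactors, HasP n p) : HasS A n := by
  classical
  choose! f hf using h
  refine ⟨fun v => ∏ p ∈ A.primeFactors, f p v, fun v => prod_pm _ _ fun p hp => (hf p hp).1 v, ?_⟩
  intro v hv w hw
  rw [sgnE_lo]
  simp only
  rw [← prod_mul_distrib]
  exact prod_congr rfl fun p hp => (hf p hp).2 v hv w hw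

theorem sqf_of {n p : ℕ} (hn : Fn n) (hp : p.Prime) (h2 : p ≠ 2) : ¬ p ^ 2 ∣ n :=
  Pool.Agent.N871.P15G.sqf_of hn hp h2

theorem hasP {n p : ℕ} (hn : Fn n) (hp : p.Prime) (h7 : p ≠ 7) (hd : p ∣ n) : HasP n p := by
  by_cases h2 : p = 2
  · subst h2
    rcases hn with ⟨_, h4⟩ | hn
    · omega
    · exact has_two hn
  · exact has_odd hp h2 h7 hd (sqf_of hn hp h2)

/-- **the sign functions** -/
theorem has {A n : ℕ} (hn : Fn n) (hA : A ∣ n) (h7 : ¬ 7 ∣ A) : HasS A n := by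
  refine has_of fun p hp => ?_
  have hp' := Nat.prime_of_mem_primeFactors hp
  have hpA := Nat.dvd_of_mem_primeFactors hp
  refine hasP hn hp' ?_ (hpA.trans hA)
  rintro rfl
  exact h7 hpA

end Pool.Agent.N975.P21G
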